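import Pool.Agent.Lib_helper98.GAF.Final

/-!
# Gallagher's theorem, uniformly in the centre of the window and in the twist
-/

set_option autoImplicit false
set_option linter.unusedSectionVars false

namespace Pool.Agent.GA

open Finset Complex Metric
open scoped ArithmeticFunction.vonMangoldt Classical

/-- Gallagher's theorem for primes: the bound of each character is uniform over all windows
with centre at least `M₀` and over all twists -/
theorem gal_sup : ∀ c₁ : ℝ, 0 < c₁ → ∃ C : ℝ, 1 ≤ C ∧ ∃ c : ℝ, 0 < c ∧ ∃ A : ℝ, 1 ≤ A ∧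
    ∀ D : ℕ, 4 ≤ D → Good c₁ D → ∀ M₀ : ℝ, 2 ≤ M₀ → A * Real.log D ≤ M₀ →
    ∃ E : (q : ℕ) → DirichletCharacter ℂ q → ℝ, (∀ (q : ℕ) (χ : DirichletCharacter ℂ q), 0 ≤ E q χ) ∧
      ∑ q ∈ Icc 1 D, ∑ χ ∈ Prm q, E q χ ≤ C * Real.exp (-(c * M₀ / Real.log D)) ∧
      ∀ (k : ℕ) (M : ℝ), M₀ ≤ M → M ^ 2 ≤ k → 4 * k ≤ D ^ 2 * M →
      ∀ q ∈ Icc 1 D, ∀ χ ∈ Prm q, ∀ t : ℝ, |t| ≤ D / 2 →
        ‖SK χ k M t‖ ≤ E q χ ∧ ‖SKP χ k M t‖ ≤ E q χ := by
  intro c₁ hc₁
  obtain ⟨Cd, hCd, hden⟩ := density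
  obtain ⟨c₀, hc₀, hzf⟩ := zero_free_good c₁ hc₁
  obtain ⟨C₁, hC₁, hone⟩ := x3_one
  obtain ⟨C₂, hC₂, hpp⟩ := x3_SK_sub_SKP
  refine ⟨2 * Real.exp (2 * Cd) + 1000000 * C₁ + C₂, by
      have := Real.exp_pos (2 * Cd)
      nlinarith, min (c₀ / 8) (1 / 264), by positivity,
    max (8 * Cd + 8) 1500, le_trans (by norm_num) (le_max_right _ _),
    fun D hD hgood M₀ hM2 hMA => ?_⟩
  have hD2 : 2 ≤ D := by omega
  have hDR : (4 : ℝ) ≤ D := by exact_mod_cast hD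
  set L : ℝ := Real.log D with hL
  have hL0 : 0 < L := Real.log_pos (by linarith)
  set K : ℝ := M₀ / L with hK
  have hKL : K * L = M₀ := by rw [hK]; field_simp
  have hM1500 : 1500 * L ≤ M₀ := by
    have := mul_le_mul_of_nonneg_right (le_max_right (8 * Cd + 8) 1500) hL0.le
    linarith
  have hMCd : 8 * Cd + 8 ≤ K := by
    rw [hK, le_div_iff₀ hL0]
    have := mul_le_mul_of_nonneg_right (le_max_left (8 * Cd + 8) 1500) hL0.le
    linarith
  have hne : ∀ q ∈ Icc 1 D, NeZero q := fun q hq => ⟨by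
    have := (Finset.mem_Icc.1 hq).1
    omega⟩
  have hDsq : (0 : ℝ) < (D : ℝ) ^ 2 := by positivity
  set E₁ : ℝ := 1000000 * C₁ * Real.exp (-(M₀ / 132)) / (D : ℝ) ^ 2 with hE₁
  set E₂ : ℝ := C₂ * Real.exp (-(M₀ / 8)) / (D : ℝ) ^ 2 with hE₂
  have hE₁0 : 0 ≤ E₁ := by positivity
  have hE₂0 : 0 ≤ E₂ := by positivity
  have hml : ∀ (q : ℕ) (χ : DirichletCharacter ℂ q) (ρ : ℂ), 0 ≤ mlt (LF χ) ρ :=
    fun q χ ρ => Nat.cast_nonneg _
  refine ⟨fun q χ => ∑ ρ ∈ zr (LF χ) (1 / 16) D, mlt (LF χ) ρ *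
      Real.exp (-(K * L * (1 - ρ.re) / 4)) + (E₁ + E₂),
    fun q χ => add_nonneg (Finset.sum_nonneg fun ρ _ => mul_nonneg (hml q χ ρ)
      (Real.exp_pos _).le) (by positivity), ?_, ?_⟩
  · -- the sum
    have hcard : ∑ q ∈ Icc 1 D, ∑ χ ∈ Prm q, (E₁ + E₂) ≤
        1000000 * C₁ * Real.exp (-(M₀ / 132)) + C₂ * Real.exp (-(M₀ / 8)) := by
      have hE0 : 0 ≤ E₁ + E₂ := by positivity
      have h2 : ∑ q ∈ Icc 1 D, ∑ _χ ∈ Prm q, (E₁ + E₂) ≤ ∑ q ∈ Icc 1 D, (D : ℝ) * (E₁ + E₂) := by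
        apply Finset.sum_le_sum
        intro q hq
        have := hne q hq
        rw [Finset.sum_const, nsmul_eq_mul]
        apply mul_le_mul_of_nonneg_right _ hE0
        refine (x3_card (q := q)).trans ?_
        exact_mod_cast (Finset.mem_Icc.1 hq).2
      refine h2.trans ?_
      rw [Finset.sum_const, Nat.card_Icc, nsmul_eq_mul, Nat.add_sub_cancel]
      have h3 : (D : ℝ) * (D * (E₁ + E₂)) = (D : ℝ) ^ 2 * (E₁ + E₂) := by ring
      rw [h3, hE₁, hE₂, ← add_div, mul_div_cancel₀ _ hDsq.ne']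
    have hzeros : ∑ q ∈ Icc 1 D, ∑ χ ∈ Prm q, ∑ ρ ∈ zr (LF χ) (1 / 16) D,
        mlt (LF χ) ρ * Real.exp (-(K * L * (1 - ρ.re) / 4)) ≤
        2 * Real.exp (2 * Cd) * Real.exp (-(c₀ * K / 8)) := by
      have h2 := x2_zero_sum ((Icc 1 D).sigma Prm) (fun i => LF i.2) (fun _ => 2)
        (D := D) (L := L) (K := K) (c₀ := c₀) (Cd := Cd) ?_ ?_ hL0 (by linarith) hMCd ?_ ?_
      · rw [Finset.sum_sigma] at h2
        exact h2
      · rintro ⟨q, χ⟩ hi
        rw [Finset.mem_sigma] at hi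
        have := hne q hi.1
        exact LF_diff (z3_Prm hi.2).2
      · rintro ⟨q, χ⟩ hi
        rw [Finset.mem_sigma] at hi
        have := hne q hi.1
        exact LF_ne_zero (z3_Prm hi.2).2 (by norm_num)
      · rintro ⟨q, χ⟩ hi ρ hρ him
        rw [Finset.mem_sigma] at hi
        exact hzf D hD2 hgood q hi.1 χ hi.2 ρ hρ him
      · intro δ hδ hδ1
        rw [Finset.sum_sigma]
        exact hden D hD2 δ hδ hδ1
    set m : ℝ := min (c₀ / 8) (1 / 264) with hm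
    have hm0 : 0 < m := by positivity
    have e1 : Real.exp (-(c₀ * K / 8)) ≤ Real.exp (-(m * M₀ / L)) := by
      apply Real.exp_le_exp.2
      have h6 : m * M₀ / L = m * K := by
        rw [hK]; ring
      rw [h6]
      have h7 : 0 ≤ K := by positivity
      have := mul_le_mul_of_nonneg_right (min_le_left (c₀ / 8) (1 / 264)) h7
      linarith
    have hmle : m ≤ 1 / 264 := min_le_right _ _
    have e2 : Real.exp (-(M₀ / 132)) ≤ Real.exp (-(m * M₀ / L)) := by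
      have h7 := x4_exp hD2 (a := 1 / 132) (c := m) (M := M₀) (by linarith) (by linarith) hm0.le
      have e : (1 / 132 : ℝ) * M₀ = M₀ / 132 := by ring
      rw [e] at h7
      exact h7
    have e3 : Real.exp (-(M₀ / 8)) ≤ Real.exp (-(m * M₀ / L)) := by
      have h7 := x4_exp hD2 (a := 1 / 8) (c := m) (M := M₀) (by linarith) (by linarith) hm0.le
      have e : (1 / 8 : ℝ) * M₀ = M₀ / 8 := by ring
      rw [e] at h7
      exact h7
    calc _ = ∑ q ∈ Icc 1 D, ∑ χ ∈ Prm q, (∑ ρ ∈ zr (LF χ) (1 / 16) D,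
          mlt (LF χ) ρ * Real.exp (-(K * L * (1 - ρ.re) / 4))) +
          ∑ q ∈ Icc 1 D, ∑ χ ∈ Prm q, (E₁ + E₂) := by
          rw [← Finset.sum_add_distrib]
          exact Finset.sum_congr rfl fun q _ => Finset.sum_add_distrib
      _ ≤ 2 * Real.exp (2 * Cd) * Real.exp (-(c₀ * K / 8)) +
          (1000000 * C₁ * Real.exp (-(M₀ / 132)) + C₂ * Real.exp (-(M₀ / 8))) := by linarith
      _ ≤ 2 * Real.exp (2 * Cd) * Real.exp (-(m * M₀ / L)) +
          (1000000 * C₁ * Real.exp (-(m * M₀ / L)) + C₂ * Real.exp (-(m * M₀ / L))) := by gcongr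
      _ = _ := by ring
  · -- the individual bounds
    intro k M hM₀ hk hk4 q hq χ hχ t ht
    have := hne q hq
    obtain ⟨-, hχ1⟩ := z3_Prm hχ
    have hM2' : 2 ≤ M := hM2.trans hM₀
    have hM1500' : 1500 * L ≤ M := hM1500.trans hM₀
    have hk0 : (0 : ℝ) < k := by nlinarith
    have hσ1 : k / M ≤ (D / 2 : ℝ) ^ 2 := by
      rw [div_le_iff₀ (by linarith)]; nlinarith
    have hsq : Real.sqrt (k / M) ≤ D / 2 := by
      rw [Real.sqrt_le_left (by linarith)]; exact hσ1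
    have h2 := hone q χ hχ1 k M t D (by linarith) hk (by linarith)
    have h3 := x3_err hC₁ hD2 (by linarith) hM1500' hk hk4 ht (q := q)
      (by exact_mod_cast (Finset.mem_Icc.1 hq).1) (by exact_mod_cast (Finset.mem_Icc.1 hq).2)
    have h4 : 72 * (k + 1) * (k / M) * Real.log (3 * (C₁ * q) *
        (2 * (k / M) + |t| + 4) ^ 2) * Real.exp (-(M / 33)) ≤ E₁ := by
      rw [hE₁, le_div_iff₀ hDsq]
      have h5 : 1000000 * C₁ * Real.exp (-(M / 132)) ≤ 1000000 * C₁ * Real.exp (-(M₀ / 132)) := by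
        have : Real.exp (-(M / 132)) ≤ Real.exp (-(M₀ / 132)) := Real.exp_le_exp.2 (by linarith)
        gcongr
      linarith
    have h5 : ∑ ρ ∈ zr (LF χ) (1 / 16) D, mlt (LF χ) ρ * Real.exp (-(M * (1 - ρ.re) / 4)) ≤
        ∑ ρ ∈ zr (LF χ) (1 / 16) D, mlt (LF χ) ρ * Real.exp (-(K * L * (1 - ρ.re) / 4)) := by
      refine Finset.sum_le_sum fun ρ hρ => mul_le_mul_of_nonneg_left ?_ (hml q χ ρ)
      rw [mem_zr (LF_diff hχ1) (LF_ne_zero (s := 2) hχ1 (by norm_num))] at hρ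
      apply Real.exp_le_exp.2
      rw [hKL]
      have h6 : 0 ≤ 1 - ρ.re := by linarith [hρ.2.2.1]
      nlinarith
    have hSK : ‖SK χ k M t‖ ≤ ∑ ρ ∈ zr (LF χ) (1 / 16) D, mlt (LF χ) ρ *
        Real.exp (-(K * L * (1 - ρ.re) / 4)) + E₁ := h2.trans (add_le_add h5 h4)
    have hEle : C₂ * (k / M / Real.sqrt k) * Real.exp (-(M / 4)) ≤ E₂ := by
      rw [hE₂, le_div_iff₀ hDsq]
      have h1 : k / M / Real.sqrt k ≤ (D : ℝ) ^ 2 := by
        have h2 : k / M ≤ (D : ℝ) ^ 2 / 4 := by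
          rw [div_le_iff₀ (by linarith)]; linarith
        have h3 : 1 ≤ Real.sqrt k := by
          rw [Real.one_le_sqrt]; nlinarith
        refine (div_le_self (by positivity) h3).trans ?_
        linarith
      have h2 : (D : ℝ) ^ 4 * Real.exp (-((1 / 8) * M)) ≤ 1 :=
        x3_pow hD2 rfl (by norm_num) (by push_cast; linarith)
      have h3 : Real.exp (-(M / 4)) = Real.exp (-((1 / 8) * M)) * Real.exp (-(M / 8)) := by
        rw [← Real.exp_add]; congr 1; ring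
      calc C₂ * (k / M / Real.sqrt k) * Real.exp (-(M / 4)) * (D : ℝ) ^ 2 ≤
          C₂ * (D : ℝ) ^ 2 * Real.exp (-(M / 4)) * (D : ℝ) ^ 2 := by gcongr
        _ = C₂ * ((D : ℝ) ^ 4 * Real.exp (-((1 / 8) * M))) * Real.exp (-(M / 8)) := by
            rw [h3]; ring
        _ ≤ C₂ * 1 * Real.exp (-(M / 8)) := by gcongr
        _ = C₂ * Real.exp (-(M / 8)) := by ring
        _ ≤ C₂ * Real.exp (-(M₀ / 8)) := by
            have : Real.exp (-(M / 8)) ≤ Real.exp (-(M₀ / 8)) := Real.exp_le_exp.2 (by linarith)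
            gcongr
    have h7 := hpp q χ k M t hM2' hk
    have h8 := norm_sub_norm_le (SKP χ k M t) (SK χ k M t)
    rw [norm_sub_rev] at h8
    refine ⟨?_, ?_⟩
    · show ‖SK χ k M t‖ ≤ _ + (E₁ + E₂)
      linarith
    · show ‖SKP χ k M t‖ ≤ _ + (E₁ + E₂)
      linarith

end Pool.Agent.GA
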